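import Mathlib

/-!
# A Vorob'ev-regular marginal scenario with a contextual partial polymatroid
-/

set_option autoImplicit false

namespace Pool.Agent.Results.MP_e7d137_lc.RegularContextual

/-- A marginal scenario on `[n]`: a family of subsets closed under subsets, containing `∅`. -/
structure IsScenario {n : ℕ} (𝓜 : Set (Finset (Fin n))) : Prop where
  empty_mem : ∅ ∈ 𝓜
  down : ∀ S T : Finset (Fin n), S ⊆ T → T ∈ 𝓜 → S ∈ 𝓜

/-- The facets are the inclusion-maximal members. -/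
def IsFacet {n : ℕ} (𝓜 : Set (Finset (Fin n))) (F : Finset (Fin n)) : Prop :=
  F ∈ 𝓜 ∧ ∀ T ∈ 𝓜, F ⊆ T → T = F

/-- Polymatroids on `[n]`. -/
structure IsPolymatroid {n : ℕ} (f : Finset (Fin n) → ℝ) : Prop where
  empty : f ∅ = 0
  nonneg : ∀ S, 0 ≤ f S
  mono : ∀ S T, S ⊆ T → f S ≤ f T
  submod : ∀ S T, f (S ∪ T) + f (S ∩ T) ≤ f S + f T

/-- Partial polymatroids on `𝓜` (only the values of `g` on `𝓜` matter). -/
structure IsPartialPolymatroid {n : ℕ} (𝓜 : Set (Finset (Fin n))) (g : Finset (Fin n) → ℝ) :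
    Prop where
  empty : g ∅ = 0
  nonneg : ∀ S ∈ 𝓜, 0 ≤ g S
  mono : ∀ S ∈ 𝓜, ∀ T ∈ 𝓜, S ⊆ T → g S ≤ g T
  submod : ∀ S ∈ 𝓜, ∀ T ∈ 𝓜, S ∪ T ∈ 𝓜 → g (S ∪ T) + g (S ∩ T) ≤ g S + g T

/-- `g` is the restriction to `𝓜` of a polymatroid on `[n]`. -/
def NonContextual {n : ℕ} (𝓜 : Set (Finset (Fin n))) (g : Finset (Fin n) → ℝ) : Prop :=
  ∃ f : Finset (Fin n) → ℝ, IsPolymatroid f ∧ ∀ S ∈ 𝓜, f S = g S

/-- `𝓜` is Vorob'ev-regular: its facets can be listed as `F_1, …, F_k` with the running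
intersection property. -/
def VorobevRegular {n : ℕ} (𝓜 : Set (Finset (Fin n))) : Prop :=
  ∃ (k : ℕ) (F : Fin k → Finset (Fin n)), Function.Injective F ∧
    (∀ T, IsFacet 𝓜 T ↔ ∃ i, F i = T) ∧
    ∀ j : Fin k, 0 < (j : ℕ) → ∃ i : Fin k, i < j ∧ ∀ l : Fin k, l < j → F j ∩ F l ⊆ F i

/-- `{a, b, p}` with `a = 0, b = 1, p = 2`. -/
def F1 : Finset (Fin 5) := {0, 1, 2}
/-- `{a, b, x, y}` with `a = 0, b = 1, x = 3, y = 4`. -/
def F2 : Finset (Fin 5) := {0, 1, 3, 4}

/-- The scenario with facets `{a, b, p}` and `{a, b, x, y}`. -/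
def 𝓜0 : Set (Finset (Fin 5)) := {S | S ⊆ F1 ∨ S ⊆ F2}

instance (S : Finset (Fin 5)) : Decidable (S ∈ 𝓜0) :=
  inferInstanceAs (Decidable (S ⊆ F1 ∨ S ⊆ F2))

/-- Integer version of the partial polymatroid. -/
def gN (S : Finset (Fin 5)) : ℕ :=
  if 2 ∈ S then
    (if 0 ∈ S ∧ 1 ∈ S then 3 else if 0 ∈ S ∨ 1 ∈ S then 2 else 1)
  else
    if S.card = 0 then 0 else if S.card = 1 then 2 else
      if S.card = 2 then (if 3 ∈ S ∧ 4 ∈ S then 4 else 3) else 4

/-- The partial polymatroid: `p` is the common information of `a` and `b`, and `a, b, x, y` violate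
the Ingleton inequality. -/
def g (S : Finset (Fin 5)) : ℝ := gN S

lemma scenario : IsScenario 𝓜0 := by
  refine ⟨Or.inl (Finset.empty_subset _), ?_⟩
  rintro S T hST (hT | hT)
  · exact Or.inl (hST.trans hT)
  · exact Or.inr (hST.trans hT)

lemma facet_iff (T : Finset (Fin 5)) : IsFacet 𝓜0 T ↔ T = F1 ∨ T = F2 := by
  constructor
  · rintro ⟨hT | hT, hmax⟩
    · exact Or.inl (hmax F1 (Or.inl subset_rfl) hT).symm
    · exact Or.inr (hmax F2 (Or.inr subset_rfl) hT).symm
  · rintro (rfl | rfl)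
    · refine ⟨Or.inl subset_rfl, ?_⟩
      rintro T (hT | hT) h
      · exact Finset.Subset.antisymm hT h
      · exact absurd (h.trans hT) (by decide)
    · refine ⟨Or.inr subset_rfl, ?_⟩
      rintro T (hT | hT) h
      · exact absurd (h.trans hT) (by decide)
      · exact Finset.Subset.antisymm hT h

lemma regular : VorobevRegular 𝓜0 := by
  refine ⟨2, ![F1, F2], ?_, ?_, ?_⟩
  · intro i j h
    fin_cases i <;> fin_cases j
    · rfl
    · exact absurd h (by decide)
    · exact absurd h (by decide)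
    · rfl
  · intro T
    rw [facet_iff]
    constructor
    · rintro (rfl | rfl)
      · exact ⟨0, rfl⟩
      · exact ⟨1, rfl⟩
    · rintro ⟨i, hi⟩
      fin_cases i
      · exact Or.inl hi.symm
      · exact Or.inr hi.symm
  · intro j hj
    refine ⟨0, ?_, ?_⟩
    · fin_cases j
      · simp at hj
      · decide
    · intro l hl
      have : l = 0 := by
        fin_cases j
        · simp at hj
        · fin_cases l
          · rfl
          · exact absurd hl (by decide)
      subst this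
      exact Finset.inter_subset_right

lemma gN_mono : ∀ S ∈ 𝓜0, ∀ T ∈ 𝓜0, S ⊆ T → gN S ≤ gN T := by
  have : ∀ S T : Finset (Fin 5), S ∈ 𝓜0 → T ∈ 𝓜0 → S ⊆ T → gN S ≤ gN T := by decide +kernel
  exact fun S hS T hT h => this S T hS hT h

lemma gN_submod : ∀ S ∈ 𝓜0, ∀ T ∈ 𝓜0, S ∪ T ∈ 𝓜0 → gN (S ∪ T) + gN (S ∩ T) ≤ gN S + gN T := by
  have : ∀ S T : Finset (Fin 5), S ∈ 𝓜0 → T ∈ 𝓜0 → S ∪ T ∈ 𝓜0 →
      gN (S ∪ T) + gN (S ∩ T) ≤ gN S + gN T := by decide +kernel
  exact fun S hS T hT h => this S T hS hT h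

lemma partialPoly : IsPartialPolymatroid 𝓜0 g := by
  refine ⟨?_, ?_, ?_, ?_⟩
  · have : gN ∅ = 0 := by decide
    simp [g, this]
  · intro S _; exact Nat.cast_nonneg _
  · intro S hS T hT h
    have := gN_mono S hS T hT h
    unfold g
    exact_mod_cast this
  · intro S hS T hT h
    have := gN_submod S hS T hT h
    unfold g
    exact_mod_cast this

lemma contextual : ¬ NonContextual 𝓜0 g := by
  rintro ⟨f, hf, hfg⟩
  have val : ∀ S : Finset (Fin 5), S ∈ 𝓜0 → ∀ k : ℕ, gN S = k → f S = k := by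
    intro S hS k hk
    rw [hfg S hS, g, hk]
  have sub : ∀ S T U V : Finset (Fin 5), S ∪ T = U → S ∩ T = V → f U + f V ≤ f S + f T := by
    rintro S T U V rfl rfl; exact hf.submod S T
  -- a = 0, b = 1, p = 2, x = 3, y = 4
  have e0 := val {0} (by decide) 2 (by decide)
  have e1 := val {1} (by decide) 2 (by decide)
  have e2 := val {2} (by decide) 1 (by decide)
  have e3 := val {3} (by decide) 2 (by decide)
  have e4 := val {4} (by decide) 2 (by decide)
  have e02 := val {0, 2} (by decide) 2 (by decide)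
  have e12 := val {1, 2} (by decide) 2 (by decide)
  have e03 := val {0, 3} (by decide) 3 (by decide)
  have e04 := val {0, 4} (by decide) 3 (by decide)
  have e13 := val {1, 3} (by decide) 3 (by decide)
  have e14 := val {1, 4} (by decide) 3 (by decide)
  have e34 := val {3, 4} (by decide) 4 (by decide)
  have e013 := val {0, 1, 3} (by decide) 4 (by decide)
  have e014 := val {0, 1, 4} (by decide) 4 (by decide)
  -- p is a function of a, hence of (a, x), etc.
  have s1 := sub {0, 2} {0, 3} {0, 2, 3} {0} (by decide) (by decide)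
  have s2 := sub {1, 2} {1, 3} {1, 2, 3} {1} (by decide) (by decide)
  have s3 := sub {0, 2} {0, 4} {0, 2, 4} {0} (by decide) (by decide)
  have s4 := sub {1, 2} {1, 4} {1, 2, 4} {1} (by decide) (by decide)
  -- f(px) + f(abpx) ≤ f(apx) + f(bpx)
  have s5 := sub {0, 2, 3} {1, 2, 3} {0, 1, 2, 3} {2, 3} (by decide) (by decide)
  have s6 := sub {0, 2, 4} {1, 2, 4} {0, 1, 2, 4} {2, 4} (by decide) (by decide)
  have m1 := hf.mono {0, 1, 3} {0, 1, 2, 3} (by decide)
  have m2 := hf.mono {0, 1, 4} {0, 1, 2, 4} (by decide)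
  -- f(pxy) + f(p) ≤ f(px) + f(py)
  have s7 := sub {2, 3} {2, 4} {2, 3, 4} {2} (by decide) (by decide)
  have m3 := hf.mono {3, 4} {2, 3, 4} (by decide)
  push_cast at *
  linarith

/-- Q2 has a negative answer: the Vorob'ev-regular scenario with facets `{a, b, p}` and
`{a, b, x, y}` carries a contextual partial polymatroid. -/
theorem result : IsScenario 𝓜0 ∧ (∀ T, IsFacet 𝓜0 T ↔ T = F1 ∨ T = F2) ∧ VorobevRegular 𝓜0 ∧
    (∃ g : Finset (Fin 5) → ℝ, IsPartialPolymatroid 𝓜0 g ∧ ¬ NonContextual 𝓜0 g) :=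
  ⟨scenario, facet_iff, regular, g, partialPoly, contextual⟩

end Pool.Agent.Results.MP_e7d137_lc.RegularContextual
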